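import Pool.Agent.W921.RF.Defs

/-! RF-EV: evaluation of words -/

set_option autoImplicit false

namespace Pool.Agent.W174.RF

open Pool.Agent.W921.RF

theorem occ_shift (c : ℤ) : ∀ (w : List Lt) (k : ℤ),
    occ (k + c) w = (occ k w).map fun o => (o.1 + c, o.2) := by
  intro w
  induction w with
  | nil => intro k; rfl
  | cons l w ih =>
    intro k
    by_cases h : l.1 = 0
    · simp only [occ, h, if_true]
      have e : k + c + sg l.2 = k + sg l.2 + c := by ring
      rw [e, ih]
    · simp only [occ, h, if_false, List.map_cons]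
      rw [ih]

theorem Zf_shift {C : Type} [AddCommGroup C] (ρ : ℤ → C) (c : ℤ) : ∀ l : List (ℤ × ℤ),
    Zf ρ (l.map fun o => (o.1 + c, o.2)) = Zf ρ l := by
  intro l
  induction l with
  | nil => rfl
  | cons o l ih =>
    simp only [List.map_cons, Zf, ih, List.map_map]
    congr 2
    apply List.map_congr_left
    intro o' _
    simp only [Function.comp_def]
    have e : o.1 + c - (o'.1 + c) = o.1 - o'.1 := by ring
    rw [e]

section
variable {I C : Type} [AddCommGroup I] [AddCommGroup C]

theorem rep_tt (u : I) (ρ : I → C) (z : (I → C) × C) :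
    rep u ρ (FreeGroup.mk [(0, true)]) z = (fun a => z.1 (a - u), z.2) := by
  simp [rep, FreeGroup.lift_mk, tt]

theorem rep_tf (u : I) (ρ : I → C) (z : (I → C) × C) :
    rep u ρ (FreeGroup.mk [(0, false)]) z = (fun a => z.1 (a + u), z.2) := by
  have h : rep u ρ (FreeGroup.mk [(0, false)]) = (tt C u)⁻¹ := by
    simp [rep, FreeGroup.lift_mk]
  rw [h]
  rfl

theorem rep_xt (u : I) (ρ : I → C) (z : (I → C) × C) :
    rep u ρ (FreeGroup.mk [(1, true)]) z = (fun a => z.1 a + ρ a, z.2 + z.1 0) := by
  simp [rep, FreeGroup.lift_mk, xx]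

theorem rep_xf (u : I) (ρ : I → C) (z : (I → C) × C) :
    rep u ρ (FreeGroup.mk [(1, false)]) z =
      (fun a => z.1 a - ρ a, z.2 - (z.1 0 - ρ 0)) := by
  have h : rep u ρ (FreeGroup.mk [(1, false)]) = (xx ρ)⁻¹ := by
    simp [rep, FreeGroup.lift_mk]
  rw [h]
  rfl

theorem rep_cons (u : I) (ρ : I → C) (l : Lt) (w : List Lt) (z : (I → C) × C) :
    rep u ρ (FreeGroup.mk (l :: w)) z =
      rep u ρ (FreeGroup.mk [l]) (rep u ρ (FreeGroup.mk w) z) := by
  have h : FreeGroup.mk (l :: w) = FreeGroup.mk [l] * FreeGroup.mk w := by
    rw [FreeGroup.mul_mk]; rfl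
  rw [h, map_mul]
  rfl

end

theorem neg_sum {C : Type} [AddCommGroup C] (h : ℤ × ℤ → C) (L : List (ℤ × ℤ)) :
    (L.map fun o => (-1 * o.2) • h o).sum = -(L.map fun o => o.2 • h o).sum := by
  induction L with
  | nil => simp
  | cons o L ih =>
    rw [List.map_cons, List.sum_cons, ih, List.map_cons, List.sum_cons, neg_add, neg_mul,
      one_mul, neg_smul]

/-- the shift step -/
theorem shift_step {I C : Type} [AddCommGroup I] [AddCommGroup C] (u : I) (ρ : I → C)
    (w : List Lt) (f : I → C) (y : C) (s : ℤ)
    (g : I → C) (hg : ∀ a, g a = f (a - s • u - tot w • u) +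
      ((occ 0 w).map fun o => o.2 • ρ (a - s • u - o.1 • u)).sum) :
    (g, y + ((occ 0 w).map fun o => o.2 • f ((o.1 - tot w) • u)).sum +
          Zf (fun i => ρ (i • u)) (occ 0 w)) =
      (fun a => f (a - (s + tot w) • u) + ((occ s w).map fun o => o.2 • ρ (a - o.1 • u)).sum,
        y + ((occ s w).map fun o => o.2 • f ((o.1 - (s + tot w)) • u)).sum +
          Zf (fun i => ρ (i • u)) (occ s w)) := by
  have e : occ s w = (occ 0 w).map fun o => (o.1 + s, o.2) := by
    have := occ_shift s w 0
    rwa [zero_add] at this
  rw [e, Zf_shift, List.map_map, Prod.mk.injEq]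
  refine ⟨?_, ?_⟩
  · funext a
    rw [hg, List.map_map]
    have e1 : a - s • u - tot w • u = a - (s + tot w) • u := by
      rw [add_smul]; abel
    rw [e1]
    congr 2
    apply List.map_congr_left
    intro o _
    simp only [Function.comp_def]
    have e2 : a - s • u - o.1 • u = a - (o.1 + s) • u := by
      rw [add_smul]; abel
    rw [e2]
  · congr 3
    apply List.map_congr_left
    intro o _
    simp only [Function.comp_def]
    have e2 : o.1 + s - (s + tot w) = o.1 - tot w := by ring
    rw [e2]

theorem task : S_EV := by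
  intro I C _ _ u ρ hρ w f y
  induction w with
  | nil =>
    have h : FreeGroup.mk ([] : List Lt) = 1 := rfl
    rw [h, map_one]
    simp [tot, occ, Zf]
  | cons l w ih =>
    rw [rep_cons, ih]
    obtain ⟨i, b⟩ := l
    have hi : i = 0 ∨ i = 1 := by omega
    rcases hi with rfl | rfl
    · have htot : tot ((0, b) :: w) = sg b + tot w := by simp [tot]
      have hocc : occ 0 ((0, b) :: w) = occ (sg b) w := by simp [occ]
      rw [htot, hocc]
      cases b with
      | true =>
        rw [rep_tt]
        apply shift_step
        intro a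
        simp [sg]
      | false =>
        rw [rep_tf]
        apply shift_step
        intro a
        simp [sg]
    · have htot : tot ((1, b) :: w) = tot w := by simp [tot]
      have hocc : occ 0 ((1, b) :: w) = (0, sg b) :: occ 0 w := by simp [occ]
      rw [htot, hocc]
      cases b with
      | true =>
        rw [rep_xt, Prod.mk.injEq]
        simp only [List.map_cons, List.sum_cons, Zf, sg, if_true]
        refine ⟨?_, ?_⟩
        · funext a
          simp
          abel
        · simp
          abel
      | false =>
        rw [rep_xf, Prod.mk.injEq]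
        simp only [List.map_cons, List.sum_cons, Zf, sg]
        refine ⟨?_, ?_⟩
        · funext a
          simp
          abel
        · have e := neg_sum (fun o => ρ ((0 - o.1) • u)) (occ 0 w)
          simp only [Bool.false_eq_true, if_false]
          rw [e, hρ]
          have e3 : ∀ o : ℤ × ℤ, (0 : I) - o.1 • u = (0 - o.1) • u := by
            intro o
            rw [zero_sub, zero_sub, neg_smul]
          simp only [e3]
          have e4 : f (0 - tot w • u) = f ((0 - tot w) • u) := by
            rw [zero_sub, zero_sub, neg_smul]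
          rw [e4, neg_smul, one_smul]
          abel

end Pool.Agent.W174.RF
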